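import Pool.Agent.Y175.TH.Rec
import Pool.Agent.Y175.TH.Banach

set_option autoImplicit false

/-!
# Intersective sets which are not `E`-intersective: the exact class, and a common thick set

* An infinite `E ⊆ ℕ` has an intersective set which is not `E`-intersective if and only if some
  `A ⊆ E` of positive upper density relative to `E` has upper Banach density zero.
* For every sequence `E 0, E 1, …` of infinite sets and every thick set `T` one thick set `R ⊆ T`
  (so an intersective set) fails to be `E i`-intersective for every `i` for which this is possible,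
  in particular for every `i` with `d^*(E i) = 0`.
* For one of the sets the failure is as strong as possible: if `A₀ ⊆ E 0` has upper Banach density
  zero and upper density more than `c` relative to `E 0`, then some `A ⊆ A₀` of upper density more
  than `c` relative to `E 0` has no difference in `R`.

This contains the full answer to the question (the case of one set `E` with `d^*(E) = 0`), which
is the starting result `ThickSeparation` of this problem; its averaging estimate
(`Pool/Agent/H280R3/SparseDiff.lean`) is used.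
-/

open Filter Finset Topology

namespace Pool.Agent.Results.MP_7e65d6_nt.CommonSeparation

open Classical in
/-- the number of elements of `S` in `[M, N)` -/
noncomputable def count (S : Set ℕ) (M N : ℕ) : ℕ := ((Ico M N).filter (fun k => k ∈ S)).card

/-- `d^*(E) = 0`: the supremum over `M` of `|E ∩ [M, M + N)| / N` tends to `0` as `N → ∞` -/
def BanachDensityZero (E : Set ℕ) : Prop :=
  Tendsto (fun N : ℕ => ⨆ M : ℕ, (count E M (M + N) : ℝ) / (N : ℝ)) atTop (𝓝 0)

/-- the upper density of `A` relative to `E`: the limsup of `|A ∩ E ∩ [N]| / |E ∩ [N]|`,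
where `[N] = {1, …, N}` -/
noncomputable def relUpperDensity (E A : Set ℕ) : ℝ :=
  limsup (fun N : ℕ => (count (A ∩ E) 1 (N + 1) : ℝ) / (count E 1 (N + 1) : ℝ)) atTop

/-- `R` is `E`-intersective: for every `A ⊆ E` of positive upper density relative to `E` some
`r ∈ R` is a difference `a - b` of elements `a, b` of `A` -/
def IsIntersectiveIn (E R : Set ℕ) : Prop :=
  ∀ A ⊆ E, 0 < relUpperDensity E A → ∃ r ∈ R, ∃ a ∈ A, ∃ b ∈ A, (r : ℤ) = (a : ℤ) - (b : ℤ)

/-- `R` is thick: it contains arbitrarily long intervals of integers -/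
def IsThick (R : Set ℕ) : Prop := ∀ n : ℕ, ∃ y : ℕ, ∀ t ≤ n, y + t ∈ R

open Pool.Agent.H280R3.SparseDiff (cnt win Sparse)

lemma count_le (S : Set ℕ) (M N : ℕ) : count S M N ≤ N - M := by
  classical
  unfold count
  refine (card_filter_le _ _).trans ?_
  simp

lemma count_mono {S T : Set ℕ} (h : S ⊆ T) (M N : ℕ) : count S M N ≤ count T M N := by
  classical
  unfold count
  exact card_le_card (fun k hk => by
    simp only [mem_filter] at hk ⊢
    exact ⟨hk.1, h hk.2⟩)

lemma sparse_of (E : Set ℕ) (hE : BanachDensityZero E) : Sparse E := by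
  intro ε hε
  obtain ⟨W, hW⟩ := eventually_atTop.1 (hE.eventually (gt_mem_nhds hε))
  refine ⟨W + 1, fun n hn M => ?_⟩
  have h0 : (0 : ℝ) < n := by
    have : 0 < n := by omega
    exact_mod_cast this
  have h1 := hW n (by omega)
  have hbdd : BddAbove (Set.range (fun M : ℕ => (count E M (M + n) : ℝ) / (n : ℝ))) := by
    refine ⟨1, ?_⟩
    rintro _ ⟨M, rfl⟩
    show (count E M (M + n) : ℝ) / (n : ℝ) ≤ 1
    rw [div_le_one h0]
    have := count_le E M (M + n)
    have h2 : M + n - M = n := by omega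
    rw [h2] at this
    exact_mod_cast this
  have h3 : (count E M (M + n) : ℝ) / (n : ℝ) < ε := lt_of_le_of_lt (le_ciSup hbdd M) h1
  rw [div_lt_iff₀ h0] at h3
  exact h3.le

lemma of_sparse (E : Set ℕ) (hE : Sparse E) : BanachDensityZero E := by
  unfold BanachDensityZero
  rw [Metric.tendsto_atTop]
  intro ε hε
  obtain ⟨W, hW⟩ := hE (ε / 2) (by positivity)
  refine ⟨W + 1, fun n hn => ?_⟩
  have h0 : (0 : ℝ) < n := by
    have : 0 < n := by omega
    exact_mod_cast this
  have h1 : (⨆ M : ℕ, (count E M (M + n) : ℝ) / (n : ℝ)) ≤ ε / 2 := by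
    refine ciSup_le fun M => ?_
    rw [div_le_iff₀ h0]
    exact hW n (by omega) M
  have h2 : 0 ≤ ⨆ M : ℕ, (count E M (M + n) : ℝ) / (n : ℝ) :=
    Real.iSup_nonneg fun M => by positivity
  rw [Real.dist_eq, sub_zero, abs_of_nonneg h2]
  linarith

lemma cnt_eq (S : Set ℕ) (N : ℕ) : cnt S N = count S 1 (N + 1) := by
  classical
  unfold cnt count
  congr 1

lemma count_pos (E : Set ℕ) (hE : E.Infinite) : ∀ᶠ N : ℕ in atTop, 0 < count E 1 (N + 1) := by
  classical
  obtain ⟨e, he, he1⟩ := hE.exists_gt 0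
  filter_upwards [eventually_ge_atTop e] with N hN
  unfold count
  refine card_pos.2 ⟨e, ?_⟩
  simp only [mem_filter, mem_Ico]
  exact ⟨⟨he1, by omega⟩, he⟩

lemma rel_ge (E A : Set ℕ) (hE : E.Infinite) (hAE : A ⊆ E) (d : ℝ)
    (h : ∃ᶠ N in atTop, d * cnt E N ≤ cnt A N) : d ≤ relUpperDensity E A := by
  refine le_limsup_of_frequently_le ?_ ?_
  · refine (h.and_eventually (count_pos E hE)).mono ?_
    rintro N ⟨h1, h2⟩
    rw [cnt_eq, cnt_eq] at h1
    have h3 : (0 : ℝ) < count E 1 (N + 1) := by exact_mod_cast h2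
    rw [le_div_iff₀ h3, Set.inter_eq_left.2 hAE]
    exact h1
  · refine ⟨1, ?_⟩
    rw [eventually_map]
    filter_upwards [count_pos E hE] with N hN
    have h3 : (0 : ℝ) < count E 1 (N + 1) := by exact_mod_cast hN
    rw [div_le_one h3]
    exact_mod_cast count_mono Set.inter_subset_right 1 (N + 1)

lemma rel_freq (E A : Set ℕ) (hE : E.Infinite) (hAE : A ⊆ E) (c : ℝ)
    (hc : c < relUpperDensity E A) : ∃ᶠ N in atTop, c * cnt E N ≤ cnt A N := by
  have h1 : ∃ᶠ N : ℕ in atTop, c <
      (count (A ∩ E) 1 (N + 1) : ℝ) / (count E 1 (N + 1) : ℝ) := by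
    refine frequently_lt_of_lt_limsup ?_ hc
    refine IsBoundedUnder.isCoboundedUnder_le ?_
    refine ⟨0, ?_⟩
    rw [eventually_map]
    exact Eventually.of_forall (fun N => by positivity)
  refine (h1.and_eventually (count_pos E hE)).mono ?_
  rintro N ⟨h2, h3⟩
  have h4 : (0 : ℝ) < count E 1 (N + 1) := by exact_mod_cast h3
  rw [lt_div_iff₀ h4, Set.inter_eq_left.2 hAE] at h2
  rw [cnt_eq, cnt_eq]
  exact h2.le

lemma rel_self (E : Set ℕ) (hE : E.Infinite) : 1 ≤ relUpperDensity E E :=
  rel_ge E E hE subset_rfl 1 (Frequently.of_forall fun N => by rw [one_mul])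

lemma cnt_univ (N : ℕ) : cnt (Set.univ : Set ℕ) N = N := by
  classical
  unfold cnt
  simp

/-- intersective sets meet the difference sets of the sets of positive upper Banach density -/
lemma meets_of_banach (R : Set ℕ) (hR : IsIntersectiveIn Set.univ R) (A : Set ℕ)
    (hA : ¬ BanachDensityZero A) : ∃ r ∈ R, ∃ a ∈ A, ∃ b ∈ A, (r : ℤ) = (a : ℤ) - (b : ℤ) := by
  have hns : ¬ Sparse A := fun h => hA (of_sparse A h)
  unfold Pool.Agent.H280R3.SparseDiff.Sparse at hns
  push Not at hns
  obtain ⟨δ, hδ, h⟩ := hns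
  obtain ⟨B, hB1, hB2⟩ := Pool.Agent.Y175.TH.exists_dense A δ hδ (fun n₀ => by
    obtain ⟨n, hn, M, hM⟩ := h n₀
    exact ⟨n, hn, M, hM.le⟩)
  have h1 : 0 < relUpperDensity Set.univ B := by
    refine lt_of_lt_of_le (half_pos hδ) (rel_ge Set.univ B Set.infinite_univ (Set.subset_univ _)
      (δ / 2) (Eventually.frequently ?_))
    filter_upwards [eventually_ge_atTop 1] with N hN
    rw [cnt_univ]
    exact hB1 N hN
  obtain ⟨r, hr, a, ha, b, hb, hab⟩ := hR B (Set.subset_univ _) h1
  obtain ⟨a', ha', b', hb', h2⟩ := hB2 a ha b hb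
  exact ⟨r, hr, a', ha', b', hb', by omega⟩

/-- thick sets of positive integers are intersective -/
lemma intersective_of_thick (R : Set ℕ) (hR0 : ∀ r ∈ R, 1 ≤ r) (hR : IsThick R) :
    IsIntersectiveIn Set.univ R := by
  intro A _ hA
  obtain ⟨r, hr, a, ha, b, hb, h⟩ := Pool.Agent.H280R3.SparseDiff.thick_meets R
    (fun n => by
      obtain ⟨y, hy⟩ := hR n
      exact ⟨y, hR0 y (by simpa using hy 0 (by omega)), hy⟩) A (relUpperDensity Set.univ A / 2)
    (by linarith) (by
      refine (rel_freq Set.univ A Set.infinite_univ (Set.subset_univ _)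
        (relUpperDensity Set.univ A / 2) (by linarith)).mono ?_
      intro N h2
      rw [cnt_univ] at h2
      exact h2)
  exact ⟨r, hr, a, ha, b, hb, by omega⟩

/-- Let `T` be thick, let `E 0, E 1, …` be infinite sets, let `A₀ ⊆ E 0` have upper Banach density
zero and let `c` be less than the upper density of `A₀` relative to `E 0`. There is a thick set
`R ⊆ T` of positive integers, in particular an intersective set, such that

* `R` is not `E i`-intersective for every `i` with `d^*(E i) = 0`;
* for every `i` the following are equivalent: `R` is `E i`-intersective; every intersective set is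
  `E i`-intersective; every `A ⊆ E i` of positive upper density relative to `E i` has positive
  upper Banach density;
* some `A ⊆ A₀` has upper density more than `c` relative to `E 0` and no difference in `R`. -/
theorem result (T : Set ℕ) (hT : IsThick T) (E : ℕ → Set ℕ) (hE : ∀ i, (E i).Infinite)
    (A₀ : Set ℕ) (hA₀E : A₀ ⊆ E 0) (hA₀ : BanachDensityZero A₀) (c : ℝ)
    (hc : c < relUpperDensity (E 0) A₀) :
    ∃ R ⊆ T, (∀ r ∈ R, 1 ≤ r) ∧ IsThick R ∧ IsIntersectiveIn Set.univ R ∧
      (∀ i, BanachDensityZero (E i) → ¬ IsIntersectiveIn (E i) R) ∧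
      (∀ i, List.TFAE [IsIntersectiveIn (E i) R,
        ∀ R' : Set ℕ, (∀ r ∈ R', 1 ≤ r) → IsIntersectiveIn Set.univ R' →
          IsIntersectiveIn (E i) R',
        ∀ A ⊆ E i, 0 < relUpperDensity (E i) A → ¬ BanachDensityZero A]) ∧
      ∃ A ⊆ A₀, c < relUpperDensity (E 0) A ∧
        ∀ r ∈ R, ∀ a ∈ A, ∀ b ∈ A, (r : ℤ) ≠ (a : ℤ) - (b : ℤ) := by
  classical
  -- the constants for the set number zero
  obtain ⟨η, hη, hη1, c2, hc2, hcc⟩ : ∃ η : ℝ, 0 < η ∧ η < 1 ∧ ∃ c2 : ℝ,
      c2 < relUpperDensity (E 0) A₀ ∧ (0 ≤ c → c < (1 - η) * c2) := by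
    rcases lt_or_ge c 0 with h | h
    · exact ⟨1 / 2, by norm_num, by norm_num, c, hc, fun h' => absurd h (not_lt.2 h')⟩
    · set c2 := (c + relUpperDensity (E 0) A₀) / 2 with hc2
      have h1 : c < c2 := by rw [hc2]; linarith
      have h2 : c2 < relUpperDensity (E 0) A₀ := by rw [hc2]; linarith
      have h3 : 0 < c2 := by linarith
      refine ⟨(c2 - c) / (2 * c2), by apply div_pos <;> linarith, ?_, c2, h2, fun _ => ?_⟩
      · rw [div_lt_one (by positivity)]
        linarith
      · have : (1 - (c2 - c) / (2 * c2)) * c2 = (c + c2) / 2 := by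
          field_simp
          ring
        rw [this]
        linarith
  -- the witnesses of the other sets
  have hW : ∀ i, ∃ B : Set ℕ, ∃ d : ℝ, B ⊆ E i ∧ BanachDensityZero B ∧ 0 ≤ d ∧
      (∃ᶠ N in atTop, d * cnt (E i) N ≤ cnt B N) ∧
      ((¬ ∀ A ⊆ E i, 0 < relUpperDensity (E i) A → ¬ BanachDensityZero A) → 0 < d) := by
    intro i
    by_cases h : ∀ A ⊆ E i, 0 < relUpperDensity (E i) A → ¬ BanachDensityZero A
    · refine ⟨∅, 0, Set.empty_subset _, ?_, le_rfl, Frequently.of_forall fun N => ?_,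
        fun h' => absurd h h'⟩
      · refine of_sparse _ (fun ε hε => ⟨0, fun n _ M => ?_⟩)
        have : win (∅ : Set ℕ) M n = 0 := by simp [Pool.Agent.H280R3.SparseDiff.win]
        rw [this]
        push_cast
        positivity
      · rw [zero_mul]
        positivity
    · have h' := h
      push Not at h'
      obtain ⟨B, hB1, hB2, hB3⟩ := h'
      exact ⟨B, relUpperDensity (E i) B / 2, hB1, hB3, by linarith,
        rel_freq (E i) B (hE i) hB1 _ (by linarith), fun _ => by linarith⟩
  choose B d hBE hB0 hd0 hBf hBd using hW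
  -- the scales
  obtain ⟨φ, hφ, hφ'⟩ := extraction_of_frequently_atTop
    (rel_freq (E 0) A₀ (hE 0) hA₀E c2 hc2)
  choose ψ hψ hψ' using fun i => extraction_of_frequently_atTop (hBf i)
  set F : ℕ → Set ℕ := fun j => Nat.casesOn j A₀ B with hF
  set ν : ℕ → ℕ → ℕ := fun j => Nat.casesOn j φ ψ with hν
  obtain ⟨A, x, cc, hA1, hx, hA2, hcc0, hccp, hA3⟩ := Pool.Agent.Y175.TH.core T hT F
    (fun j => by
      cases j with
      | zero => exact sparse_of _ hA₀
      | succ j => exact sparse_of _ (hB0 j)) ν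
    (fun j => by
      cases j with
      | zero => exact hφ
      | succ j => exact hψ j) η hη hη1.le
  have hR0 : ∀ r ∈ {r : ℕ | ∃ n, x n ≤ r ∧ r ≤ x n + n}, 1 ≤ r := by
    rintro r ⟨n, h1, h2⟩
    have := (hx n).1
    omega
  have hthick : IsThick {r : ℕ | ∃ n, x n ≤ r ∧ r ≤ x n + n} := by
    intro n
    refine ⟨x n, fun t ht => ⟨n, by omega, by omega⟩⟩
  have hno : ∀ j, ∀ r ∈ {r : ℕ | ∃ n, x n ≤ r ∧ r ≤ x n + n}, ∀ a ∈ A j, ∀ b ∈ A j,
      (r : ℤ) ≠ (a : ℤ) - (b : ℤ) := by
    rintro j r ⟨n, h1, h2⟩ a ha b hb hab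
    exact hA2 j n a ha b hb ⟨by omega, by omega⟩
  have hint := intersective_of_thick _ hR0 hthick
  -- failure for every set which is not rich
  have hfail : ∀ i, (¬ ∀ A ⊆ E i, 0 < relUpperDensity (E i) A → ¬ BanachDensityZero A) →
      ¬ IsIntersectiveIn (E i) {r : ℕ | ∃ n, x n ≤ r ∧ r ≤ x n + n} := by
    intro i hi h
    have hd := hBd i hi
    have hAE : A (i + 1) ⊆ E i := (hA1 (i + 1)).trans (hBE i)
    have h1 : 0 < cc (i + 1) * (1 - η) * d i := by
      have := hccp (i + 1)
      have h2 : 0 < 1 - η := by linarith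
      positivity
    have h2 : cc (i + 1) * (1 - η) * d i ≤ relUpperDensity (E i) (A (i + 1)) := by
      refine rel_ge (E i) _ (hE i) hAE _ ((hA3 (i + 1)).mono ?_)
      rintro N ⟨⟨k, hk⟩, hN⟩
      have h3 : d i * cnt (E i) N ≤ cnt (B i) N := by
        rw [← hk]
        exact hψ' i k
      refine le_trans ?_ hN
      rw [mul_assoc]
      refine mul_le_mul_of_nonneg_left h3 ?_
      have := hccp (i + 1)
      have h2 : 0 < 1 - η := by linarith
      positivity
    obtain ⟨r, hr, a, ha, b, hb, hab⟩ := h (A (i + 1)) hAE (lt_of_lt_of_le h1 h2)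
    exact hno (i + 1) r hr a ha b hb hab
  refine ⟨{r | ∃ n, x n ≤ r ∧ r ≤ x n + n}, ?_, hR0, hthick, hint, ?_, ?_, A 0, hA1 0, ?_, hno 0⟩
  · rintro r ⟨n, h1, h2⟩
    have := (hx n).2 (r - x n) (by omega)
    rwa [show x n + (r - x n) = r by omega] at this
  · intro i hi
    refine hfail i (fun h => ?_)
    exact h (E i) subset_rfl (lt_of_lt_of_le one_pos (rel_self (E i) (hE i))) hi
  · intro i
    tfae_have 3 → 2 := by
      intro h R' _ hR' A' hA' hpos
      exact meets_of_banach R' hR' A' (h A' hA' hpos)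
    tfae_have 2 → 1 := fun h => h _ hR0 hint
    tfae_have 1 → 3 := by
      intro h
      by_contra hcon
      exact hfail i hcon h
    tfae_finish
  · rcases lt_or_ge c 0 with h | h
    · refine lt_of_lt_of_le h (rel_ge (E 0) (A 0) (hE 0) ((hA1 0).trans hA₀E) 0
        (Frequently.of_forall fun N => ?_))
      rw [zero_mul]
      positivity
    · refine lt_of_lt_of_le (hcc h) (rel_ge (E 0) (A 0) (hE 0) ((hA1 0).trans hA₀E) _
        ((hA3 0).mono ?_))
      rintro N ⟨⟨k, hk⟩, hN⟩
      have h3 : c2 * cnt (E 0) N ≤ cnt A₀ N := by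
        rw [← hk]
        exact hφ' k
      refine le_trans ?_ hN
      rw [hcc0, one_mul, mul_assoc]
      exact mul_le_mul_of_nonneg_left h3 (by linarith)

end Pool.Agent.Results.MP_7e65d6_nt.CommonSeparation
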